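import Mathlib

set_option autoImplicit false

namespace Pool.Agent.Results.MP_4d58d7_an.NoRelativeError

open MeasureTheory Matrix

/-- Squared Euclidean norm. -/
def sqn {n : ℕ} (x : Fin n → ℝ) : ℝ := ∑ i, x i ^ 2

/-- Frobenius norm. -/
noncomputable def frob {a b : ℕ} (M : Matrix (Fin a) (Fin b) ℝ) : ℝ :=
  Real.sqrt (∑ i, ∑ j, M i j ^ 2)

/-- `X` is the Moore-Penrose pseudoinverse of `M`. -/
def IsMP {a b : ℕ} (M : Matrix (Fin a) (Fin b) ℝ) (X : Matrix (Fin b) (Fin a) ℝ) : Prop :=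
  M * X * M = M ∧ X * M * X = X ∧ (M * X)ᵀ = M * X ∧ (X * M)ᵀ = X * M

/-- The random matrix `W` is an oblivious subspace injection of dimension `r` with injectivity `α`
and failure probability `δ`. -/
def IsOSI {n k : ℕ} {S : Type} [MeasurableSpace S] (P : Measure S)
    (W : S → Matrix (Fin n) (Fin k) ℝ) (r : ℕ) (α δ : ℝ) : Prop :=
  (∀ i j, Measurable fun s => W s i j) ∧
  (∀ x : Fin n → ℝ, Integrable (fun s => sqn ((W s)ᵀ *ᵥ x)) P ∧
    ∫ s, sqn ((W s)ᵀ *ᵥ x) ∂P = sqn x) ∧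
  (∀ V : Submodule ℝ (Fin n → ℝ), Module.finrank ℝ V = r →
    1 - δ ≤ (P {s | ∀ x ∈ V, α * sqn x ≤ sqn ((W s)ᵀ *ᵥ x)}).toReal)

/-- The optimal least-squares error. -/
noncomputable def opt {n d p : ℕ} (A : Matrix (Fin n) (Fin d) ℝ) (B : Matrix (Fin n) (Fin p) ℝ) :
    ℝ := ⨅ X : Matrix (Fin d) (Fin p) ℝ, frob (A * X - B)

/-! ### the construction -/

noncomputable def Wm (ε : ℝ) : Fin 3 → Matrix (Fin 2) (Fin 3) ℝ
  | 0 => 0
  | 1 => !![Real.sqrt (1 - ε), 0, Real.sqrt (1 / 99 + ε);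
            0, Real.sqrt (1 - ε), Real.sqrt (1 / 99 + ε)]
  | 2 => !![Real.sqrt (1 - ε), 0, Real.sqrt (1 / 99 + ε);
            0, Real.sqrt (1 - ε), -Real.sqrt (1 / 99 + ε)]

noncomputable def Pm : Measure (Fin 3) :=
  ENNReal.ofReal (1 / 100) • Measure.dirac 0 + (ENNReal.ofReal (99 / 200) • Measure.dirac 1 +
    ENNReal.ofReal (99 / 200) • Measure.dirac 2)

instance : IsProbabilityMeasure Pm := by
  constructor
  simp only [Pm, Measure.add_apply, Measure.smul_apply, measure_univ, smul_eq_mul, mul_one]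
  rw [← ENNReal.ofReal_add (by norm_num) (by norm_num), ← ENNReal.ofReal_add (by norm_num)
    (by norm_num)]
  norm_num

lemma integral_Pm (f : Fin 3 → ℝ) :
    ∫ s, f s ∂Pm = (1 / 100) * f 0 + (99 / 200) * f 1 + (99 / 200) * f 2 := by
  have hi : ∀ μ : Measure (Fin 3), IsFiniteMeasure μ → Integrable f μ :=
    fun μ _ => Integrable.of_finite
  rw [Pm, integral_add_measure, integral_add_measure, integral_smul_measure,
    integral_smul_measure, integral_smul_measure, integral_dirac, integral_dirac, integral_dirac]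
  · rw [ENNReal.toReal_ofReal (by norm_num), ENNReal.toReal_ofReal (by norm_num)]
    simp only [smul_eq_mul]
    ring
  · exact hi _ (by
      constructor
      simp)
  · exact hi _ (by
      constructor
      simp)
  · exact hi _ (by
      constructor
      simp)
  · exact hi _ (by
      constructor
      simp)

lemma sq_pos (ε : ℝ) (h0 : 0 < ε) (h1 : ε < 1) (x : Fin 2 → ℝ) :
    sqn ((Wm ε 1)ᵀ *ᵥ x) = (1 - ε) * (x 0 ^ 2 + x 1 ^ 2) + (1 / 99 + ε) * (x 0 + x 1) ^ 2 := by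
  have ha : Real.sqrt (1 - ε) ^ 2 = 1 - ε := Real.sq_sqrt (by linarith)
  have hb : Real.sqrt (1 / 99 + ε) ^ 2 = 1 / 99 + ε := Real.sq_sqrt (by linarith)
  rw [← ha, ← hb]
  simp [sqn, Wm, Matrix.mulVec, dotProduct, Fin.sum_univ_succ, Matrix.transpose]
  ring

lemma sq_neg (ε : ℝ) (h0 : 0 < ε) (h1 : ε < 1) (x : Fin 2 → ℝ) :
    sqn ((Wm ε 2)ᵀ *ᵥ x) = (1 - ε) * (x 0 ^ 2 + x 1 ^ 2) + (1 / 99 + ε) * (x 0 - x 1) ^ 2 := by
  have ha : Real.sqrt (1 - ε) ^ 2 = 1 - ε := Real.sq_sqrt (by linarith)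
  have hb : Real.sqrt (1 / 99 + ε) ^ 2 = 1 / 99 + ε := Real.sq_sqrt (by linarith)
  rw [← ha, ← hb]
  simp [sqn, Wm, Matrix.mulVec, dotProduct, Fin.sum_univ_succ, Matrix.transpose]
  ring

lemma sq_zero (ε : ℝ) (x : Fin 2 → ℝ) : sqn ((Wm ε 0)ᵀ *ᵥ x) = 0 := by
  simp [sqn, Wm]

lemma osi (ε : ℝ) (h0 : 0 < ε) (h1 : ε < 1) : IsOSI Pm (Wm ε) 1 (1 - ε) (1 / 100) := by
  refine ⟨fun i j => measurable_of_finite _, fun x => ⟨Integrable.of_finite, ?_⟩, fun V _ => ?_⟩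
  · rw [integral_Pm, sq_zero, sq_pos ε h0 h1, sq_neg ε h0 h1]
    simp only [sqn, Fin.sum_univ_two]
    ring
  · have hsub : ({1, 2} : Set (Fin 3)) ⊆
        {s | ∀ x ∈ V, (1 - ε) * sqn x ≤ sqn ((Wm ε s)ᵀ *ᵥ x)} := by
      intro s hs x _
      have e : sqn x = x 0 ^ 2 + x 1 ^ 2 := by simp [sqn, Fin.sum_univ_two]
      rcases hs with rfl | hs
      · rw [sq_pos ε h0 h1, e]
        have : 0 ≤ (1 / 99 + ε) * (x 0 + x 1) ^ 2 := by positivity
        linarith
      · rw [Set.mem_singleton_iff] at hs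
        subst hs
        rw [sq_neg ε h0 h1, e]
        have : 0 ≤ (1 / 99 + ε) * (x 0 - x 1) ^ 2 := by positivity
        linarith
    have hP : Pm ({1, 2} : Set (Fin 3)) = ENNReal.ofReal (99 / 100) := by
      simp only [Pm, Measure.add_apply, Measure.smul_apply, smul_eq_mul]
      rw [Measure.dirac_apply' _ (Set.toFinite _).measurableSet,
        Measure.dirac_apply' _ (Set.toFinite _).measurableSet,
        Measure.dirac_apply' _ (Set.toFinite _).measurableSet]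
      simp
      rw [← ENNReal.ofReal_add (by norm_num) (by norm_num)]
      norm_num
    have hle := measure_mono (μ := Pm) hsub
    rw [hP] at hle
    have h2 := ENNReal.toReal_mono (measure_ne_top _ _) hle
    rw [ENNReal.toReal_ofReal (by norm_num)] at h2
    linarith

def Am : Matrix (Fin 2) (Fin 1) ℝ := !![1; 0]
def Bm : Matrix (Fin 2) (Fin 1) ℝ := !![1; 1]

lemma frob_form (X : Matrix (Fin 1) (Fin 1) ℝ) :
    frob (Am * X - Bm) = Real.sqrt ((X 0 0 - 1) ^ 2 + 1) := by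
  have e0 : (Am * X - Bm) 0 0 = X 0 0 - 1 := by
    rw [Matrix.sub_apply, Matrix.mul_apply, Fin.sum_univ_one]
    simp [Am, Bm]
  have e1 : (Am * X - Bm) 1 0 = -1 := by
    rw [Matrix.sub_apply, Matrix.mul_apply, Fin.sum_univ_one]
    simp [Am, Bm]
  rw [frob, Fin.sum_univ_two, Fin.sum_univ_one, Fin.sum_univ_one, e0, e1]
  norm_num

lemma opt_eq : opt Am Bm = 1 := by
  apply le_antisymm
  · have hb : BddBelow (Set.range fun X : Matrix (Fin 1) (Fin 1) ℝ => frob (Am * X - Bm)) :=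
      ⟨0, by rintro _ ⟨X, rfl⟩; exact Real.sqrt_nonneg _⟩
    refine le_trans (ciInf_le hb (1 : Matrix (Fin 1) (Fin 1) ℝ)) ?_
    rw [frob_form]; simp
  · apply le_ciInf
    intro X
    rw [frob_form]
    rw [Real.le_sqrt' (by norm_num)]
    nlinarith [sq_nonneg (X 0 0 - 1)]

lemma rank_Am : Am.rank = 1 := by
  apply le_antisymm
  · exact Matrix.rank_le_width Am
  · rw [Nat.one_le_iff_ne_zero]
    intro h
    have h2 : Am = 0 := by
      have h3 : LinearMap.range Am.mulVecLin = ⊥ := by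
        rw [← Submodule.finrank_eq_zero (R := ℝ)]
        exact h
      have h4 : Am.mulVecLin = 0 := LinearMap.range_eq_bot.1 h3
      ext i j
      have h5 := congrFun (congrArg (fun f => f (fun _ => (1 : ℝ))) h4) i
      fin_cases j
      simpa [Am, Matrix.mulVec, dotProduct] using h5
    have h6 := congrFun (congrFun h2 0) 0
    simp [Am] at h6

lemma mp_col (a b : ℝ) (ha : 0 < a) (M : Matrix (Fin 3) (Fin 1) ℝ) (h0 : M 0 0 = a)
    (h1 : M 1 0 = 0) (h2 : M 2 0 = b) : (∃ Y, IsMP M Y) ∧ ∀ Y, IsMP M Y →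
      Y 0 0 = a / (a ^ 2 + b ^ 2) ∧ Y 0 1 = 0 ∧ Y 0 2 = b / (a ^ 2 + b ^ 2) := by
  have hpos : 0 < a ^ 2 + b ^ 2 := by positivity
  constructor
  · refine ⟨(a ^ 2 + b ^ 2)⁻¹ • Mᵀ, ?_⟩
    have hMM : Mᵀ * M = (a ^ 2 + b ^ 2) • (1 : Matrix (Fin 1) (Fin 1) ℝ) := by
      ext i j
      fin_cases i; fin_cases j
      simp [Matrix.mul_apply, Fin.sum_univ_succ, h0, h1]
      rw [show M 2 0 = b from h2]
      ring
    refine ⟨?_, ?_, ?_, ?_⟩
    · rw [Matrix.mul_assoc, Matrix.smul_mul, hMM, smul_smul, inv_mul_cancel₀ hpos.ne', one_smul,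
        Matrix.mul_one]
    · rw [Matrix.smul_mul, hMM, smul_smul, inv_mul_cancel₀ hpos.ne', one_smul, Matrix.one_mul]
    · rw [Matrix.mul_smul, Matrix.transpose_smul, Matrix.transpose_mul, Matrix.transpose_transpose]
    · rw [Matrix.smul_mul, Matrix.transpose_smul, Matrix.transpose_mul, Matrix.transpose_transpose]
  · intro Y hY
    obtain ⟨e1, _, e3, _⟩ := hY
    have s01 : M 0 0 * Y 0 1 = M 1 0 * Y 0 0 := by
      have := congrFun (congrFun e3 1) 0
      simp [Matrix.mul_apply] at this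
      exact this
    have s02 : M 0 0 * Y 0 2 = M 2 0 * Y 0 0 := by
      have := congrFun (congrFun e3 2) 0
      simp [Matrix.mul_apply] at this
      exact this
    have s1 : M 0 0 * (Y 0 0 * M 0 0 + Y 0 1 * M 1 0 + Y 0 2 * M 2 0) = M 0 0 := by
      have := congrFun (congrFun e1 0) 0
      rw [Matrix.mul_assoc] at this
      simp only [Matrix.mul_apply, Fin.sum_univ_one, Fin.sum_univ_three] at this
      exact this
    rw [h0, h1] at s01
    rw [h0, h2] at s02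
    rw [h0, h1, h2] at s1
    have y1 : Y 0 1 = 0 := by
      have : a * Y 0 1 = 0 := by linarith
      exact (mul_eq_zero.1 this).resolve_left ha.ne'
    have s1' : Y 0 0 * a + Y 0 2 * b = 1 := by
      have : a * (Y 0 0 * a + Y 0 2 * b) = a * 1 := by linear_combination s1
      exact mul_left_cancel₀ ha.ne' this
    refine ⟨?_, y1, ?_⟩
    · rw [eq_div_iff hpos.ne']
      linear_combination a * s1' - b * s02
    · rw [eq_div_iff hpos.ne']
      linear_combination b * s1' + a * s02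

/-- For every constant `C` there are an accuracy `ε`, a matrix `A` of full column rank, a matrix
`B` and an oblivious subspace injection of dimension `d` with injectivity `1 - ε` and failure
probability `1/100` such that the sketch-and-solve error exceeds `(1 + C ε) OPT` surely. -/
theorem result : ∀ C : ℝ, ∃ ε : ℝ, 0 < ε ∧ ε < 1 ∧
    ∃ (n d p k : ℕ) (A : Matrix (Fin n) (Fin d) ℝ) (B : Matrix (Fin n) (Fin p) ℝ),
      0 < n ∧ 0 < d ∧ 0 < p ∧ 0 < k ∧ A.rank = d ∧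
      ∃ (S : Type) (_ : MeasurableSpace S) (P : Measure S) (W : S → Matrix (Fin n) (Fin k) ℝ),
        IsProbabilityMeasure P ∧ IsOSI P W d (1 - ε) (1 / 100) ∧
        ∀ s : S, (∃ Y, IsMP ((W s)ᵀ * A) Y) ∧
          ∀ Y, IsMP ((W s)ᵀ * A) Y →
            (1 + C * ε) * opt A B < frob (A * (Y * ((W s)ᵀ * B)) - B) := by
  intro C
  have hC : 0 < |C| + 1 := by positivity
  refine ⟨1 / (100000 * (|C| + 1)), by positivity, ?_, ?_⟩
  · rw [div_lt_one (by positivity)]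
    nlinarith [abs_nonneg C]
  set ε := 1 / (100000 * (|C| + 1)) with hε
  have hε0 : 0 < ε := by positivity
  have hε1 : ε < 1 := by
    rw [hε, div_lt_one (by positivity)]
    nlinarith [abs_nonneg C]
  have hCε : C * ε ≤ 1 / 100000 := by
    have h1 : C ≤ |C| + 1 := by linarith [le_abs_self C]
    calc C * ε ≤ (|C| + 1) * ε := mul_le_mul_of_nonneg_right h1 hε0.le
      _ = 1 / 100000 := by rw [hε]; field_simp
  refine ⟨2, 1, 1, 3, Am, Bm, by norm_num, by norm_num, by norm_num, by norm_num, rank_Am,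
    Fin 3, inferInstance, Pm, Wm ε, inferInstance, osi ε hε0 hε1, ?_⟩
  rw [opt_eq, mul_one]
  have ha : Real.sqrt (1 - ε) ^ 2 = 1 - ε := Real.sq_sqrt (by linarith)
  have hb : Real.sqrt (1 / 99 + ε) ^ 2 = 1 / 99 + ε := Real.sq_sqrt (by linarith)
  have hapos : 0 < Real.sqrt (1 - ε) := Real.sqrt_pos.2 (by linarith)
  have hnum : ∀ z : ℝ, (1 : ℝ) / 100 ≤ |z| → 1 + C * ε < Real.sqrt (z ^ 2 + 1) := by
    intro z hz
    have h1 : (1 / 100 : ℝ) ^ 2 ≤ z ^ 2 := by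
      rw [← sq_abs z]
      exact pow_le_pow_left₀ (by norm_num) hz 2
    have h2 : (1 : ℝ) + 1 / 100000 < Real.sqrt (z ^ 2 + 1) := by
      apply Real.lt_sqrt_of_sq_lt
      nlinarith
    linarith
  have hab : Real.sqrt (1 - ε) ^ 2 + Real.sqrt (1 / 99 + ε) ^ 2 = 100 / 99 := by
    rw [ha, hb]; ring
  intro s
  fin_cases s
  · -- the sketch is zero
    have hz : (Wm ε 0)ᵀ * Am = 0 := by simp [Wm]
    change (∃ Y, IsMP ((Wm ε 0)ᵀ * Am) Y) ∧ ∀ Y, IsMP ((Wm ε 0)ᵀ * Am) Y →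
      1 + C * ε < frob (Am * (Y * ((Wm ε 0)ᵀ * Bm)) - Bm)
    rw [hz]
    refine ⟨⟨0, by simp [IsMP]⟩, fun Y hY => ?_⟩
    have hY0 : Y = 0 := by
      have := hY.2.1
      simpa using this.symm
    rw [hY0, frob_form]
    have := hnum (-1) (by norm_num)
    simpa using this
  · change (∃ Y, IsMP ((Wm ε 1)ᵀ * Am) Y) ∧ ∀ Y, IsMP ((Wm ε 1)ᵀ * Am) Y →
      1 + C * ε < frob (Am * (Y * ((Wm ε 1)ᵀ * Bm)) - Bm)
    obtain ⟨h1, h2⟩ := mp_col (Real.sqrt (1 - ε)) (Real.sqrt (1 / 99 + ε)) hapos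
      ((Wm ε 1)ᵀ * Am) (by simp [Wm, Am, Matrix.mul_apply, Fin.sum_univ_two])
      (by simp [Wm, Am, Matrix.mul_apply, Fin.sum_univ_two])
      (by simp [Wm, Am, Matrix.mul_apply, Fin.sum_univ_two])
    refine ⟨h1, fun Y hY => ?_⟩
    obtain ⟨y0, y1, y2⟩ := h2 Y hY
    rw [frob_form]
    apply hnum
    have e : (Y * ((Wm ε 1)ᵀ * Bm)) 0 0 = Y 0 0 * Real.sqrt (1 - ε) + Y 0 1 * Real.sqrt (1 - ε) +
        Y 0 2 * (2 * Real.sqrt (1 / 99 + ε)) := by
      simp [Wm, Bm, Matrix.mul_apply, Fin.sum_univ_succ]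
      ring
    rw [e, y0, y1, y2, hab]
    have e2 : Real.sqrt (1 - ε) / (100 / 99) * Real.sqrt (1 - ε) + 0 * Real.sqrt (1 - ε) +
        Real.sqrt (1 / 99 + ε) / (100 / 99) * (2 * Real.sqrt (1 / 99 + ε)) - 1 =
        1 / 100 + 99 / 100 * ε := by
      have : Real.sqrt (1 - ε) / (100 / 99) * Real.sqrt (1 - ε) + 0 * Real.sqrt (1 - ε) +
        Real.sqrt (1 / 99 + ε) / (100 / 99) * (2 * Real.sqrt (1 / 99 + ε)) - 1 =
        99 / 100 * Real.sqrt (1 - ε) ^ 2 + 99 / 50 * Real.sqrt (1 / 99 + ε) ^ 2 - 1 := by ring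
      rw [this, ha, hb]; ring
    rw [e2, abs_of_pos (by positivity)]
    linarith
  · change (∃ Y, IsMP ((Wm ε 2)ᵀ * Am) Y) ∧ ∀ Y, IsMP ((Wm ε 2)ᵀ * Am) Y →
      1 + C * ε < frob (Am * (Y * ((Wm ε 2)ᵀ * Bm)) - Bm)
    obtain ⟨h1, h2⟩ := mp_col (Real.sqrt (1 - ε)) (Real.sqrt (1 / 99 + ε)) hapos
      ((Wm ε 2)ᵀ * Am) (by simp [Wm, Am, Matrix.mul_apply, Fin.sum_univ_two])
      (by simp [Wm, Am, Matrix.mul_apply, Fin.sum_univ_two])
      (by simp [Wm, Am, Matrix.mul_apply, Fin.sum_univ_two])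
    refine ⟨h1, fun Y hY => ?_⟩
    obtain ⟨y0, y1, y2⟩ := h2 Y hY
    rw [frob_form]
    apply hnum
    have e : (Y * ((Wm ε 2)ᵀ * Bm)) 0 0 =
        Y 0 0 * Real.sqrt (1 - ε) + Y 0 1 * Real.sqrt (1 - ε) := by
      simp [Wm, Bm, Matrix.mul_apply, Fin.sum_univ_succ]
    rw [e, y0, y1, hab]
    have e2 : Real.sqrt (1 - ε) / (100 / 99) * Real.sqrt (1 - ε) + 0 * Real.sqrt (1 - ε) - 1 =
        -(1 / 100 + 99 / 100 * ε) := by
      have : Real.sqrt (1 - ε) / (100 / 99) * Real.sqrt (1 - ε) + 0 * Real.sqrt (1 - ε) - 1 =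
        99 / 100 * Real.sqrt (1 - ε) ^ 2 - 1 := by ring
      rw [this, ha]; ring
    rw [e2, abs_neg, abs_of_pos (by positivity)]
    linarith

end Pool.Agent.Results.MP_4d58d7_an.NoRelativeError
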